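import Mathlib
import Pool.Agent.W2helper81.RieszTwo

set_option autoImplicit false

namespace Pool.Agent.Results.MP_743703_an.AtTwo

open Pool.Agent.W2helper81.Riesz Pool.Agent.W2helper81.RieszTwo

/-- For `s = 2` and every dimension `d ≥ 1`, the minimizers of the Riesz `2`-energy among
configurations of `d + 3` distinct points of the unit sphere of `ℝ^(d+1)` are exactly the unions
of the vertex sets of two mutually orthogonal regular simplices, of arbitrary sizes `k, l ≥ 2`
with `k + l = d + 3`; the least energy is `((d+2)^2+1)/2`. -/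
theorem result (d : ℕ) (hd : 1 ≤ d) (x : Fin (d + 3) → EuclideanSpace ℝ (Fin (d + 1))) :
    (IsMinimizer 2 x ↔ ∃ k l : ℕ, 2 ≤ k ∧ 2 ≤ l ∧ k + l = d + 3 ∧ TwoSimplices k l x) ∧
    (IsMinimizer 2 x → energy 2 x = (((d : ℝ) + 2) ^ 2 + 1) / 2) := by
  classical
  have hpow : (2 : ℝ) ^ (-((2 : ℝ) / 2)) = 1 / 2 := by
    rw [show -((2 : ℝ) / 2) = -1 by norm_num, Real.rpow_neg_one]; norm_num
  have hE : ∀ y : Fin (d + 3) → EuclideanSpace ℝ (Fin (d + 1)), IsConfig y →
      energy 2 y = 1 / 2 * (((d : ℝ) + 3) * ((d : ℝ) + 2) + pairSum (ker 1) y) := by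
    intro y hy
    rw [energy_eq 2 hy, hpow]
    congr 1
    unfold pairSum
    have e1 : ∀ i, ∑ j ∈ Finset.univ.erase i, (1 - inner ℝ (y i) (y j)) ^ (-((2 : ℝ) / 2)) =
        ((d : ℝ) + 2) + ∑ j ∈ Finset.univ.erase i, ker 1 (inner ℝ (y i) (y j)) := by
      intro i
      have e2 : ∀ j ∈ Finset.univ.erase i, (1 - inner ℝ (y i) (y j)) ^ (-((2 : ℝ) / 2)) =
          1 + ker 1 (inner ℝ (y i) (y j)) := by
        intro j hj
        have h1 := inner_lt_one_of_ne hy.1 hy.2 i j (Finset.ne_of_mem_erase hj).symm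
        have h2 : 1 - inner ℝ (y i) (y j) ≠ 0 := by linarith
        rw [show -((2 : ℝ) / 2) = -1 by norm_num, Real.rpow_neg_one]
        unfold ker
        rw [one_mul]
        field_simp
        ring
      rw [Finset.sum_congr rfl e2, Finset.sum_add_distrib, Finset.sum_const,
        Finset.card_erase_of_mem (Finset.mem_univ i), Finset.card_univ, Fintype.card_fin,
        nsmul_eq_mul, mul_one]
      congr 1
      rw [Nat.cast_sub (by omega)]
      push_cast
      ring
    rw [Finset.sum_congr rfl (fun i _ => e1 i), Finset.sum_add_distrib, Finset.sum_const,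
      Finset.card_univ, Fintype.card_fin, nsmul_eq_mul]
    push_cast
    ring
  have hlow : ∀ y : Fin (d + 3) → EuclideanSpace ℝ (Fin (d + 1)), IsConfig y →
      -((d : ℝ) + 3) + 2 ≤ pairSum (ker 1) y ∧
      (pairSum (ker 1) y ≤ -((d : ℝ) + 3) + 2 → ∃ c : Fin (d + 3) → Fin 2, IsOrthSimplices c y) := by
    intro y hy
    have h := two_bound (x := y) hy.1 (inner_lt_one_of_ne hy.1 hy.2) (r := 2)
      (by rw [Fintype.card_fin, finrank_euclideanSpace, Fintype.card_fin])
    rw [Fintype.card_fin] at h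
    push_cast at h
    exact h
  have hval : ∀ (y : Fin (d + 3) → EuclideanSpace ℝ (Fin (d + 1))) (c : Fin (d + 3) → Fin 2),
      IsOrthSimplices c y → IsConfig y ∧ pairSum (ker 1) y = -((d : ℝ) + 3) + 2 := by
    intro y c hc
    refine ⟨⟨hc.norm_eq, hc.injective⟩, ?_⟩
    have h := two_value hc
    rw [Fintype.card_fin] at h
    push_cast at h
    exact h
  have hmin : IsMinimizer 2 x ↔ ∃ c : Fin (d + 3) → Fin 2, IsOrthSimplices c x := by
    constructor
    · rintro ⟨hx, hmin⟩
      obtain ⟨y, c, hc, _⟩ := exists_balanced 2 ((d + 3) / 2) ((d + 3) % 2) (d + 1) (d + 3)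
        (by omega) (by omega) (by omega) (by omega)
      have hv := hval y c hc
      have h1 := hmin y hv.1
      rw [hE x hx, hE y hv.1, hv.2] at h1
      exact (hlow x hx).2 (by linarith)
    · rintro ⟨c, hc⟩
      have hv := hval x c hc
      refine ⟨hv.1, fun y hy => ?_⟩
      rw [hE x hv.1, hE y hy, hv.2]
      have := (hlow y hy).1
      linarith
  refine ⟨?_, ?_⟩
  · rw [hmin]
    constructor
    · rintro ⟨c, hc⟩
      have h1 := sum_csize c
      rw [Fin.sum_univ_two, Fintype.card_fin] at h1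
      exact ⟨csize c 0, csize c 1, hc.1 0, hc.1 1, h1, two_of_orth hc⟩
    · rintro ⟨k, l, hk, hl, _, h⟩
      obtain ⟨c, hc, _, _⟩ := orth_of_two h hk hl
      exact ⟨c, hc⟩
  · intro h
    obtain ⟨c, hc⟩ := hmin.1 h
    have hv := hval x c hc
    rw [hE x hv.1, hv.2]
    ring

end Pool.Agent.Results.MP_743703_an.AtTwo
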