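import Mathlib
import Pool.Agent.W2helper81.RieszTwo
import Pool.Agent.W2helper81.RieszCond

set_option autoImplicit false

namespace Pool.Agent.Results.MP_743703_an.BelowTwo

open Pool.Agent.W2helper81.Riesz Pool.Agent.W2helper81.RieszTwo

/-- For `0 < s < 2` and every dimension `d ≥ 1` other than `2`, the minimizers of the Riesz
`s`-energy among configurations of `d + 3` distinct points of the unit sphere of `ℝ^(d+1)` are
exactly the unions of the vertex sets of two mutually orthogonal regular simplices with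
`⌊(d+3)/2⌋` and `⌊(d+4)/2⌋` vertices. -/
theorem result (d : ℕ) (hd : 1 ≤ d) (hd2 : d ≠ 2) (s : ℝ) (hs0 : 0 < s) (hs2 : s < 2)
    (x : Fin (d + 3) → EuclideanSpace ℝ (Fin (d + 1))) :
    IsMinimizer s x ↔ TwoSimplices ((d + 3) / 2) ((d + 4) / 2) x := by
  classical
  obtain ⟨m, hm⟩ : ∃ m, m = (d + 3) / 2 := ⟨_, rfl⟩
  obtain ⟨e, he⟩ : ∃ e, e = (d + 3) % 2 := ⟨_, rfl⟩
  have he2 : e < 2 := by omega
  have hN : d + 3 = 2 * m + e := by omega
  have hm2 : 2 ≤ m := by omega
  have hρ0 : -1 < s / 2 := by linarith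
  have hρ1 : s / 2 < 1 := by linarith
  have hc : e = 0 ∨ Cond (s / 2) m := by
    rcases Nat.eq_zero_or_pos e with h | h
    · left; exact h
    · right
      exact cond_pos (by linarith) hρ1 (by omega)
  have hf : Rep (s / 2) (fun t => (1 - t) ^ (-(s / 2))) := by
    obtain ⟨C, hC, h⟩ := rep_pos (by linarith : 0 < s / 2) hρ1
    exact ⟨C, 1, hC, h⟩
  have hpow : (0 : ℝ) < 2 ^ (-(s / 2)) := Real.rpow_pos_of_pos (by norm_num) _
  have hlow : ∀ y : Fin (d + 3) → EuclideanSpace ℝ (Fin (d + 1)), IsConfig y →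
      2 ^ (-(s / 2)) * valN (d + 3) m 2 e (fun t => (1 - t) ^ (-(s / 2))) ≤ energy s y ∧
      (energy s y ≤ 2 ^ (-(s / 2)) * valN (d + 3) m 2 e (fun t => (1 - t) ^ (-(s / 2))) →
        IsBalanced 2 y) := by
    intro y hy
    have h := main_bound (x := y) hρ0 hρ1 hf hy.1 (inner_lt_one_of_ne hy.1 hy.2) (r := 2) (m := m)
      (e := e) (by rw [Fintype.card_fin, finrank_euclideanSpace, Fintype.card_fin])
      (by rw [Fintype.card_fin]; exact hN) he2 hm2 hc
    rw [Fintype.card_fin] at h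
    rw [energy_eq s hy]
    refine ⟨mul_le_mul_of_nonneg_left h.1 hpow.le, fun hle => h.2 ?_⟩
    exact le_of_mul_le_mul_left hle hpow
  have hval : ∀ y : Fin (d + 3) → EuclideanSpace ℝ (Fin (d + 1)), IsBalanced 2 y →
      IsConfig y ∧ energy s y =
        2 ^ (-(s / 2)) * valN (d + 3) m 2 e (fun t => (1 - t) ^ (-(s / 2))) := by
    intro y hy
    obtain ⟨c, hc, hs⟩ := hy
    have hcfg : IsConfig y := ⟨hc.norm_eq, hc.injective⟩
    refine ⟨hcfg, ?_⟩
    have h := main_value (x := y) (r := 2) (m := m) (e := e)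
      (by rw [Fintype.card_fin]; exact hN) he2 ⟨c, hc, hs⟩ (fun t => (1 - t) ^ (-(s / 2)))
    rw [Fintype.card_fin] at h
    rw [energy_eq s hcfg, h]
  rw [← balanced_iff hd]
  constructor
  · rintro ⟨hx, hmin⟩
    obtain ⟨y, hy⟩ := exists_balanced 2 m e (d + 1) (d + 3) hm2 he2 hN (by omega)
    have hv := hval y hy
    apply (hlow x hx).2
    rw [← hv.2]
    exact hmin y hv.1
  · intro hb
    have hv := hval x hb
    refine ⟨hv.1, fun y hy => ?_⟩
    rw [hv.2]
    exact (hlow y hy).1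

end Pool.Agent.Results.MP_743703_an.BelowTwo
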